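import Pool.Agent.L5helper13.Seq

/-!
# All the 16 sign patterns of the Liouville function along any four positions

For each set of four positions all the 16 sign patterns of the Liouville function occur with frequency at least `c` at
almost all scales, where `c > 0` is an absolute constant. For at most three positions all the patterns are
equidistributed at almost all scales.

From the starting files: the correlations of odd order and of order two at almost all scales
(`Pool.Agent.N781.P.p_lam`, `Pool.Agent.V1213.CH.all_of_rat`, `Pool.Agent.Y842.PH.one_E`), and the bound for the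
correlations of order four (`Pool.Agent.Y958.U.lam_final`). From Mathlib: `ArithmeticFunction.cardFactors n`: the
number of the prime factors of `n` with multiplicity.
-/

set_option autoImplicit false

namespace Pool.Agent.Results.MP_4fffd4_nt.FourPositions

open Finset Filter Topology

/-- The Liouville function. -/
noncomputable def lam (n : ℕ) : ℝ := (-1) ^ ArithmeticFunction.cardFactors n

open Classical in
/-- `n` has the sign pattern `P` along the positions `A`: for `h ∈ A`, `λ(n + h)` is `1` if `h ∈ P` and `-1` if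
`h ∉ P`. -/
def HasPattern (A P : Finset ℕ) (n : ℕ) : Prop := A.filter (fun h => lam (n + h) = 1) = P

open Classical in
/-- The number of the `1 ≤ n ≤ N` with the sign pattern `P` along the positions `A`. -/
noncomputable def occ (A P : Finset ℕ) (N : ℕ) : ℕ := ((Icc 1 N).filter (fun n => HasPattern A P n)).card

/-- The set of scales `𝓔` has logarithmic density zero. -/
def LogDensityZero (𝓔 : Set ℕ) : Prop :=
  open Classical in
  Tendsto (fun X : ℕ => (∑ N ∈ Icc 1 X, if N ∈ 𝓔 then (1 : ℝ) / N else 0) / Real.log X) atTop (𝓝 0)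

open Classical in
lemma occ_eq (A P : Finset ℕ) (N : ℕ) : occ A P N = Pool.Agent.L5helper13.occ A P N := by
  unfold occ Pool.Agent.L5helper13.occ
  congr 1
  ext n
  rw [mem_filter, mem_filter]
  refine and_congr Iff.rfl ?_
  unfold HasPattern
  constructor <;> intro h <;> rw [← h] <;> ext x <;> rw [mem_filter, mem_filter] <;> rfl

/-- There are a set `𝓔` of logarithmic density zero and `c > 0` such that, for each set `A` of positions:
1. if `A` has at most three elements, the frequencies of all the `2 ^ |A|` patterns along `A` tend to `2 ^ (-|A|)` as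
   `N → ∞`, `N ∉ 𝓔`;
2. if `A` has four elements, all the 16 patterns have frequency at least `c` at all large `N ∉ 𝓔`. -/
theorem result : ∃ (𝓔 : Set ℕ) (c : ℝ), LogDensityZero 𝓔 ∧ 0 < c ∧
    (∀ A : Finset ℕ, A.card ≤ 3 → ∀ ε : ℝ, 0 < ε → ∃ N₀ : ℕ, ∀ N : ℕ, N₀ ≤ N → N ∉ 𝓔 → ∀ P ⊆ A,
      |(occ A P N : ℝ) - N / 2 ^ A.card| ≤ ε * N) ∧
    (∀ A : Finset ℕ, A.card = 4 → ∃ N₀ : ℕ, ∀ N : ℕ, N₀ ≤ N → N ∉ 𝓔 → ∀ P ⊆ A, c * N ≤ occ A P N) := by
  classical
  obtain ⟨c, F, hc, hF, h1, h2⟩ := Pool.Agent.L5helper13.small
  refine ⟨F, c / 32, hF, by positivity, fun A hA ε hε => ?_, fun A hA => ?_⟩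
  · obtain ⟨N₀, h3⟩ := Pool.Agent.L5helper13.three h1 A hA ε hε
    refine ⟨N₀, fun N hN hNF P hP => ?_⟩
    rw [occ_eq]
    exact h3 N hN hNF P hP
  · obtain ⟨N₀, h3⟩ := Pool.Agent.L5helper13.four h1 c hc h2 A hA
    refine ⟨N₀, fun N hN hNF P hP => ?_⟩
    rw [occ_eq]
    exact h3 N hN hNF P hP

end Pool.Agent.Results.MP_4fffd4_nt.FourPositions
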