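import Pool.Agent.L5helper13.Seq

/-!
# The frequencies of the sign patterns of the Liouville function along arbitrary sets of positions

For each set of `r` positions, at almost all scales, no sign pattern of the Liouville function along these positions
has a frequency greater than `1 / (2 r) + o(1)`, and at least `2 r` patterns have a frequency which is bounded from
below in terms of `r`.

From the starting files: the correlations of odd order and of order two at almost all scales
(`Pool.Agent.N781.P.p_lam`, `Pool.Agent.V1213.CH.all_of_rat`, `Pool.Agent.Y842.PH.one_E`). From Mathlib: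
`ArithmeticFunction.cardFactors n`: the number of the prime factors of `n` with multiplicity.
-/

set_option autoImplicit false

namespace Pool.Agent.Results.MP_4fffd4_nt.FrequentPatterns

open Finset Filter Topology

/-- The Liouville function. -/
noncomputable def lam (n : ℕ) : ℝ := (-1) ^ ArithmeticFunction.cardFactors n

open Classical in
/-- `n` has the sign pattern `P` along the positions `A`: for `h ∈ A`, `λ(n + h)` is `1` if `h ∈ P` and `-1` if
`h ∉ P`. -/
def HasPattern (A P : Finset ℕ) (n : ℕ) : Prop := A.filter (fun h => lam (n + h) = 1) = P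

open Classical in
/-- The number of the `1 ≤ n ≤ N` with the sign pattern `P` along the positions `A`. -/
noncomputable def occ (A P : Finset ℕ) (N : ℕ) : ℕ := ((Icc 1 N).filter (fun n => HasPattern A P n)).card

/-- The set of scales `𝓔` has logarithmic density zero. -/
def LogDensityZero (𝓔 : Set ℕ) : Prop :=
  open Classical in
  Tendsto (fun X : ℕ => (∑ N ∈ Icc 1 X, if N ∈ 𝓔 then (1 : ℝ) / N else 0) / Real.log X) atTop (𝓝 0)

open Classical in
lemma occ_eq (A P : Finset ℕ) (N : ℕ) : occ A P N = Pool.Agent.L5helper13.occ A P N := by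
  unfold occ Pool.Agent.L5helper13.occ
  congr 1
  ext n
  rw [mem_filter, mem_filter]
  refine and_congr Iff.rfl ?_
  unfold HasPattern
  constructor <;> intro h <;> rw [← h] <;> ext x <;> rw [mem_filter, mem_filter] <;> rfl

/-- There is a set `𝓔` of logarithmic density zero such that for each set `A` of `r ≥ 1` positions, each `ε > 0` and
all large `N ∉ 𝓔` no pattern along `A` has a frequency greater than `1 / (2 r) + ε`, and at least `2 r` patterns have
frequency at least `1 / (r 2 ^ (r + 2))`. -/
theorem result : ∃ 𝓔 : Set ℕ, LogDensityZero 𝓔 ∧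
    ∀ A : Finset ℕ, A.Nonempty → ∀ ε : ℝ, 0 < ε → ∃ N₀ : ℕ, ∀ N : ℕ, N₀ ≤ N → N ∉ 𝓔 →
      (∀ P ⊆ A, (occ A P N : ℝ) ≤ (1 / (2 * A.card) + ε) * N) ∧
      2 * A.card ≤ (A.powerset.filter (fun P => (N : ℝ) / (A.card * 2 ^ (A.card + 2)) ≤ occ A P N)).card := by
  classical
  obtain ⟨c, F, hc, hF, h1, h2⟩ := Pool.Agent.L5helper13.small
  refine ⟨F, hF, fun A hA ε hε => ?_⟩
  obtain ⟨N₁, h3⟩ := Pool.Agent.L5helper13.cap h1 A hA ε hε
  obtain ⟨N₂, h4⟩ := Pool.Agent.L5helper13.many h1 A hA
  refine ⟨N₁ + N₂, fun N hN hNF => ⟨fun P hP => ?_, ?_⟩⟩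
  · rw [occ_eq]
    exact h3 N (by omega) hNF P hP
  · refine (h4 N (by omega) hNF).trans (le_of_eq ?_)
    congr 1
    refine filter_congr fun P _ => ?_
    rw [occ_eq]

end Pool.Agent.Results.MP_4fffd4_nt.FrequentPatterns
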