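import Pool.Agent.L5helper13.Seq

/-!
# Infinite sets of positions with all the sign patterns of the Liouville function

Each infinite set of positions contains an infinite subset along which all the sign patterns of the Liouville function
occur, with nearly the frequencies of independent signs: for all `q > 4` the `j`-th element of the subset can be found
among the first `K q ^ j` elements of the set.

From the starting files: the correlations of order two at almost all scales (`Pool.Agent.Y842.PH.one_E`). From
Mathlib: `ArithmeticFunction.cardFactors n`: the number of the prime factors of `n` with multiplicity; `G.image f`: the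
set of the `f i`, `i ∈ G`.
-/

set_option autoImplicit false

namespace Pool.Agent.Results.MP_4fffd4_nt.InfiniteSubsets

open Finset Filter Topology

/-- The Liouville function. -/
noncomputable def lam (n : ℕ) : ℝ := (-1) ^ ArithmeticFunction.cardFactors n

open Classical in
/-- `n` has the sign pattern `P` along the positions `A`: for `h ∈ A`, `λ(n + h)` is `1` if `h ∈ P` and `-1` if
`h ∉ P`. -/
def HasPattern (A P : Finset ℕ) (n : ℕ) : Prop := A.filter (fun h => lam (n + h) = 1) = P

open Classical in
/-- The number of the `1 ≤ n ≤ N` with the sign pattern `P` along the positions `A`. -/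
noncomputable def occ (A P : Finset ℕ) (N : ℕ) : ℕ := ((Icc 1 N).filter (fun n => HasPattern A P n)).card

/-- The set of scales `𝓔` has logarithmic density zero. -/
def LogDensityZero (𝓔 : Set ℕ) : Prop :=
  open Classical in
  Tendsto (fun X : ℕ => (∑ N ∈ Icc 1 X, if N ∈ 𝓔 then (1 : ℝ) / N else 0) / Real.log X) atTop (𝓝 0)

open Classical in
lemma occ_eq (A P : Finset ℕ) (N : ℕ) : occ A P N = Pool.Agent.L5helper13.occ A P N := by
  unfold occ Pool.Agent.L5helper13.occ
  congr 1
  ext n
  rw [mem_filter, mem_filter]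
  refine and_congr Iff.rfl ?_
  unfold HasPattern
  constructor <;> intro h <;> rw [← h] <;> ext x <;> rw [mem_filter, mem_filter] <;> rfl

/-- There is a set `𝓔` of logarithmic density zero with the following properties.
1. Let `q > 4`, `ε > 0`. There is `K` such that for each infinite set of positions `a_0 < a_1 < ...` and all scales
   `s_0 < s_1 < ...` not in `𝓔` there are an infinite subset of the positions, whose element number `j` is among
   `a_0, ..., a_m`, `m ≤ K q ^ j`, and a subsequence of the scales, such that for each finite subset `A` of this subset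
   all the `2 ^ |A|` patterns have a frequency between `(1 - ε) 2 ^ (-|A|)` and `(1 + ε) 2 ^ (-|A|)` at all late scales of
   the subsequence.
2. In particular each infinite set of positions contains an infinite subset such that for each finite subset `A` of it
   all the `2 ^ |A|` patterns along `A` occur infinitely often. -/
theorem result : ∃ 𝓔 : Set ℕ, LogDensityZero 𝓔 ∧
    (∀ q ε : ℝ, 4 < q → 0 < ε → ∃ K : ℝ, ∀ a s : ℕ → ℕ, StrictMono a → StrictMono s → (∀ j, s j ∉ 𝓔) →
      ∃ φ ψ : ℕ → ℕ, StrictMono φ ∧ StrictMono ψ ∧ (∀ j, (ψ j : ℝ) ≤ K * q ^ j) ∧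
        ∀ G : Finset ℕ, ∃ j₀ : ℕ, ∀ j : ℕ, j₀ ≤ j → ∀ P ⊆ G.image (fun i => a (ψ i)),
          |(occ (G.image (fun i => a (ψ i))) P (s (φ j)) : ℝ) - s (φ j) / 2 ^ G.card| ≤
            ε * (s (φ j) / 2 ^ G.card)) ∧
    (∀ a : ℕ → ℕ, StrictMono a → ∃ ψ : ℕ → ℕ, StrictMono ψ ∧ ∀ G : Finset ℕ,
      ∀ P ⊆ G.image (fun i => a (ψ i)), ∀ M : ℕ, ∃ n, M ≤ n ∧ HasPattern (G.image (fun i => a (ψ i))) P n) := by
  classical
  obtain ⟨c, F, hc, hF, h1, h2⟩ := Pool.Agent.L5helper13.small
  refine ⟨F, hF, fun q ε hq hε => ?_, fun a ha => ?_⟩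
  · obtain ⟨K, h3⟩ := Pool.Agent.L5helper13.inf_shat h1 q ε hq hε
    refine ⟨K, fun a s ha hs hsF => ?_⟩
    obtain ⟨φ, ψ, hφ, hψ, hψK, h4⟩ := h3 a s ha hs hsF
    refine ⟨φ, ψ, hφ, hψ, hψK, fun G => ?_⟩
    obtain ⟨j₀, hj₀⟩ := h4 G
    refine ⟨j₀, fun j hj P hP => ?_⟩
    rw [occ_eq]
    exact hj₀ j hj P hP
  · obtain ⟨ψ, hψ, h3⟩ := Pool.Agent.L5helper13.inf_all h1 hF a ha
    refine ⟨ψ, hψ, fun G P hP M => ?_⟩
    obtain ⟨n, hn, h4⟩ := h3 G P hP M
    refine ⟨n, hn, ?_⟩
    unfold HasPattern
    rw [← h4]
    ext x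
    rw [mem_filter, mem_filter]
    rfl

end Pool.Agent.Results.MP_4fffd4_nt.InfiniteSubsets
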