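import Pool.Agent.L5helper13.Seq

/-!
# Subsets of arbitrary sets of positions with all the sign patterns of the Liouville function

Each set of `R` positions contains, at almost all scales, a subset of `k` positions such that all the `2 ^ k` sign
patterns of the Liouville function along the subset have nearly the same frequency, where `4 ^ k` may be almost as
large as `R`.

From the starting files: the correlations of odd order and of order two at almost all scales
(`Pool.Agent.N781.P.p_lam`, `Pool.Agent.V1213.CH.all_of_rat`, `Pool.Agent.Y842.PH.one_E`). From Mathlib: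
`ArithmeticFunction.cardFactors n`: the number of the prime factors of `n` with multiplicity.
-/

set_option autoImplicit false

namespace Pool.Agent.Results.MP_4fffd4_nt.NearIndependentSubsets

open Finset Filter Topology

/-- The Liouville function. -/
noncomputable def lam (n : ℕ) : ℝ := (-1) ^ ArithmeticFunction.cardFactors n

open Classical in
/-- `n` has the sign pattern `P` along the positions `A`: for `h ∈ A`, `λ(n + h)` is `1` if `h ∈ P` and `-1` if
`h ∉ P`. -/
def HasPattern (A P : Finset ℕ) (n : ℕ) : Prop := A.filter (fun h => lam (n + h) = 1) = P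

open Classical in
/-- The number of the `1 ≤ n ≤ N` with the sign pattern `P` along the positions `A`. -/
noncomputable def occ (A P : Finset ℕ) (N : ℕ) : ℕ := ((Icc 1 N).filter (fun n => HasPattern A P n)).card

/-- The set of scales `𝓔` has logarithmic density zero. -/
def LogDensityZero (𝓔 : Set ℕ) : Prop :=
  open Classical in
  Tendsto (fun X : ℕ => (∑ N ∈ Icc 1 X, if N ∈ 𝓔 then (1 : ℝ) / N else 0) / Real.log X) atTop (𝓝 0)

open Classical in
lemma occ_eq (A P : Finset ℕ) (N : ℕ) : occ A P N = Pool.Agent.L5helper13.occ A P N := by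
  unfold occ Pool.Agent.L5helper13.occ
  congr 1
  ext n
  rw [mem_filter, mem_filter]
  refine and_congr Iff.rfl ?_
  unfold HasPattern
  constructor <;> intro h <;> rw [← h] <;> ext x <;> rw [mem_filter, mem_filter] <;> rfl

/-- There is a set `𝓔` of logarithmic density zero such that for each set `A` of `R` positions, `1 ≤ k ≤ R`, `ε > 0`
and all large `N ∉ 𝓔` there is a subset `B` of `A` with `k` elements, such that all the `2 ^ k` patterns along `B` have a
frequency which differs from `2 ^ (-k)` by at most `(E / √(R - k + 1) + ε) 2 ^ (-k)`, where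
`E = 2 ^ (k - 1) - 1 - k (k - 1) / 2`. -/
theorem result : ∃ 𝓔 : Set ℕ, LogDensityZero 𝓔 ∧
    ∀ (A : Finset ℕ) (k : ℕ), 1 ≤ k → k ≤ A.card → ∀ ε : ℝ, 0 < ε → ∃ N₀ : ℕ, ∀ N : ℕ, N₀ ≤ N → N ∉ 𝓔 →
      ∃ B ⊆ A, B.card = k ∧ ∀ P ⊆ B, |(occ B P N : ℝ) - N / 2 ^ k| ≤
        ((2 ^ (k - 1) - 1 - (k : ℝ) * (k - 1) / 2) / Real.sqrt ((A.card : ℝ) - k + 1) + ε) * (N / 2 ^ k) := by
  classical
  obtain ⟨c, F, hc, hF, h1, h2⟩ := Pool.Agent.L5helper13.small
  refine ⟨F, hF, fun A k hk1 hk ε hε => ?_⟩
  obtain ⟨N₀, h3⟩ := Pool.Agent.L5helper13.vc h1 A k hk ε hε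
  refine ⟨N₀, fun N hN hNF => ?_⟩
  obtain ⟨B, hB, hBk, h4⟩ := h3 N hN hNF
  refine ⟨B, hB, hBk, fun P hP => ?_⟩
  rw [occ_eq, ← Pool.Agent.L5helper13.ev_eq k hk1]
  exact h4 P hP

end Pool.Agent.Results.MP_4fffd4_nt.NearIndependentSubsets
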